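import Pool.Agent.T9h86.EC.A2

/-!
# The higher Chern character of projective modules over group rings at the elements `g ≠ 1`

Let `G` be a group, for example a torsion-free one, `R` a ring, for example `ℤ`, and `g ∈ G` an
element of infinite order. The component of the integral Chern character of `K₀(R[G])` in the cyclic
homology of `R[G]` at the conjugacy class of `g` has values in the homology of `C(g) / ⟨g⟩` in all
even degrees `2 k`. If `G` is torsion-free and all finitely generated projective `ℤ[G]`-modules are
stably free, these components are zero on `K₀(ℤ[G])`. For `k = 0` this is the Hattori-Stallings trace,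
and Bass proved that it is zero for `ℤ[G]` unless `g` is conjugate to `g ^ (p ^ r)`, for every prime
`p` and some `r ≥ 1`. We prove this for all `k ≥ 1`.

Idea of the proof. Let `e` be an idempotent matrix. The sum over the closed words of length `2 k + 1`
which is the Chern character is, up to a binomial factor, a weighted sum over the closed words of
length `p ^ m`, because `e = e ^ (p ^ m)` and because cocycles can be summed along paths. The weights
are invariant under rotations of the words, so the words which are not periodic with a small period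
contribute multiples of a large power of `p`. There are only finitely many words `u` of bounded
length, and if `g` is not conjugate to its powers, then no power `u ^ (p ^ n)` is conjugate to `g`
for large `n`. So there are no closed words with a small period if `m` is large.
The operator calculus for the first part is that of the starting library (`W647`).
-/

set_option autoImplicit false

namespace Pool.Agent.Results.MP_551055_al.EvenChernOffIdentity

open Pool.Agent.W647.HX1 Pool.Agent.W647.HV1 Pool.Agent.T9h86.EC

universe u1 u2 u3 u4 u5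

/-- Let `T : R × A → M` be biadditive, `T (x y, a) = T (y x, a)`, let `e` be an idempotent matrix over
`R[G]`, and let `H` be a subgroup containing the supports of the entries of `e`. Let `g ∈ G`, `k ≥ 1`,
let `c` be an `A`-valued class cocycle for `g` of degree `2 k`, and
`τ = ∑ T (tr (e_{w 0} e_{w 1} ⋯ e_{w (2 k)}), c (t, t w₀, …, t w₀ ⋯ w_{2 k - 1}))`,
the sum over all `w ∈ G ^ (2 k + 1)` whose product `y` is conjugate to `g`, where `t y t⁻¹ = g`.

(1) Let `p` be a prime such that no element `y` of infinite order of `H` which is conjugate to `g` in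
`G` is conjugate in `H` to `y ^ (p ^ r)` for some `r ≥ 1`. Then `(2 k)! / k! τ` is divisible in `M` by
all powers of `p`.
(2) Let `M` be torsion-free, and for every prime `p` without nonzero elements divisible by all powers
of `p` (for example `M = ℤ`). If for every `y ∈ H` of infinite order, conjugate to `g` in `G`, there
is a prime `p` such that `y` is not conjugate in `H` to any `y ^ (p ^ r)`, `r ≥ 1`, then `τ = 0`.
(3) For such `M`, `τ = 0` if `H` is residually finite. -/
theorem result (G : Type u1) [Group G] (R : Type u2) [Ring R] (A : Type u3) [AddCommGroup A]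
    (M : Type u4) [AddCommGroup M] (T : R →+ A →+ M) (hT : ∀ x y, T (x * y) = T (y * x))
    (d : Type u5) [Fintype d] [DecidableEq d] (e : Matrix d d (MonoidAlgebra R G))
    (he : e * e = e) (H : Subgroup G) (hH : ∀ i j s, (e i j).coeff s ≠ 0 → s ∈ H)
    (g : G) (t : G → G) (ht : ∀ y, IsConj y g → t y * y * (t y)⁻¹ = g)
    (k : ℕ) (hk : 1 ≤ k) (c : (Fin (2 * k + 1) → G) → A) (hc : IsClassCoc g c) :
    (∀ p : ℕ, p.Prime →
      (∀ y ∈ H, IsConj y g → ¬ IsOfFinOrder y → ∀ r : ℕ, 1 ≤ r → ∀ x ∈ H,
        x * y * x⁻¹ ≠ y ^ p ^ r) →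
      ∀ m : ℕ, ∃ z : M, (2 * k).descFactorial k • evTau T g t c (cm e) = p ^ m • z) ∧
    ((∀ (n : ℕ) (x : M), n ≠ 0 → n • x = 0 → x = 0) →
      (∀ p : ℕ, p.Prime → ∀ x : M, (∀ m : ℕ, ∃ z, x = p ^ m • z) → x = 0) →
      ((∀ y ∈ H, IsConj y g → ¬ IsOfFinOrder y → ∃ p : ℕ, p.Prime ∧
          ∀ r : ℕ, 1 ≤ r → ∀ x ∈ H, x * y * x⁻¹ ≠ y ^ p ^ r) →
        evTau T g t c (cm e) = 0) ∧
      ((∀ y : H, y ≠ 1 → ∃ N : Subgroup H, N.Normal ∧ N.FiniteIndex ∧ y ∉ N) →
        evTau T g t c (cm e) = 0)) := by
  have conv : ∀ (y : H) (p : ℕ), (∀ r : ℕ, 1 ≤ r → ∀ x ∈ H, x * (y : G) * x⁻¹ ≠ (y : G) ^ p ^ r) →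
      ∀ r : ℕ, 0 < r → ¬ IsConj y (y ^ p ^ r) := by
    intro y p h r hr hcon
    obtain ⟨x, hx⟩ := isConj_iff.1 hcon
    exact h r hr x x.2 (congrArg Subtype.val hx)
  have hfin : ∀ y : H, ¬ IsOfFinOrder y → ¬ IsOfFinOrder (y : G) := by
    intro y hy hcon
    exact hy (Submonoid.isOfFinOrder_coe.1 hcon)
  refine ⟨fun p hp h m => ?_, fun hM hM' => ⟨fun h => ?_, fun hrf => ?_⟩⟩
  · refine evTau_pow_sub H T hT ht (by omega) hc e he hH hp (fun y hy => ?_) m
    by_cases hf : IsOfFinOrder y
    · exact Or.inl hf
    · exact Or.inr (conv y p (h y y.2 hy (hfin y hf)))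
  · refine evTau_zero_sub H T hT ht (by omega) hc e he hH (fun y hy hf => ?_) hM hM'
    obtain ⟨p, hp, h1⟩ := h y y.2 hy (hfin y hf)
    exact ⟨p, hp, conv y p h1⟩
  · refine evTau_zero_sub H T hT ht (by omega) hc e he hH (fun y hy hf => ?_) hM hM'
    refine resfin_prime hrf y ?_
    rintro rfl
    exact hf IsOfFinOrder.one

end Pool.Agent.Results.MP_551055_al.EvenChernOffIdentity
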