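import Pool.Agent.T9h85.LT.Loc
import Pool.Agent.T9h85.LT.Ref
import Pool.Agent.T9h85.LT.Ab2

/-!
# Projective modules over the group rings of groups without short torsion

Compactness for the question whether the finitely generated projective modules over the integral group
rings of torsion-free groups are stably free.

(A) Let `C` be any class of groups (for example the finite groups, the cyclic groups of prime order,
the soluble groups of length at most `d`). The finitely generated projective `ℤ[G]`-modules are stably
free for all torsion-free groups `G` which are locally embeddable into `C` if and only if for all `n`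
and `s` there is an `N` such that over the groups of `C` every idempotent matrix `e` of size `n` and
norm at most `s`, for which no word of length at most `N` in the support of `e` is an element `≠ 1` of
order at most `N`, is stably free, with matrices of size, norm and word length at most `N`. Both
statements hold for the class of the abelian groups (in particular for large primes `p` the idempotent
matrices of bounded size and norm over `ℤ[ℤ/p]` are stably free).

(B) For the class of all groups the bounds may be left out: Q1 is equivalent to each of the statements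
that for all `n` and `s` there is an `N` such that every idempotent matrix of size `n` and norm at most
`s` is stably free (a) over every group without elements of the orders `2, ..., N`, (b) over every
finitely presented group if no word of length at most `N` in the support of the matrix is an element
`≠ 1` of order at most `N`. (c) Q1 is also equivalent to its case of the largest torsion-free quotient
groups of the finitely presented groups; these have recursive presentations.

Idea. Let `G_N` be counterexamples for all `N` with the same coefficients, `F` a free group with maps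
to the `G_N` which send the free generators to the elements of the supports, and `K` the limit of the
kernels along an ultrafilter. Then `F / K` is torsion-free, an equation between given matrices over
`ℤ[F]` holds over `F / K` if and only if it holds over almost all `G_N`, and `F / K` is locally
embeddable into the groups `G_N`. Conversely a torsion-free group is approximated by finitely presented
groups without short torsion.
-/

set_option autoImplicit false

namespace Pool.Agent.Results.MP_551055_al.LargeTorsion

open Pool.Agent.T9h85.LT

/-- every finitely generated projective `ℤ[G]`-module is stably free -/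
def ProjStablyFree (G : Type) [Group G] : Prop :=
  ∀ (P : Type) [AddCommGroup P] [Module (MonoidAlgebra ℤ G) P],
    Module.Finite (MonoidAlgebra ℤ G) P → Module.Projective (MonoidAlgebra ℤ G) P →
    ∃ n m : ℕ, Nonempty ((P × (Fin n → MonoidAlgebra ℤ G)) ≃ₗ[MonoidAlgebra ℤ G]
      (Fin m → MonoidAlgebra ℤ G))

theorem fin_of_mod {G : Type} [Group G] (h : ProjStablyFree G) (n : ℕ)
    (e : Matrix (Fin n) (Fin n) (MonoidAlgebra ℤ G)) (he : e * e = e) : StablyFree e := by
  obtain ⟨m, r, a, b, h1, h2⟩ := Pool.Agent.T9h15.KZ.SFree.of_mod h (Fin n) e he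
  exact ⟨m, r, a, b, h1, h2⟩

theorem mod_of_fin {G : Type} [Group G]
    (h : ∀ (n : ℕ) (e : Matrix (Fin n) (Fin n) (MonoidAlgebra ℤ G)), e * e = e → StablyFree e) :
    ProjStablyFree G :=
  Pool.Agent.T9h15.KZ.SFree.mod (sfree_of_fin h)

theorem uniform (C : ∀ (G : Type) [Group G], Prop)
    (h : ∀ (G : Type) [Group G], LocEmb C G → (∀ g : G, IsOfFinOrder g → g = 1) →
      ProjStablyFree G) (n s : ℕ) :
    ∃ N : ℕ, ∀ (G : Type) [Group G], C G → ∀ e : Matrix (Fin n) (Fin n) (MonoidAlgebra ℤ G),
      e * e = e → norm1 e ≤ s → NoShortTorsion (supp e) N → StablyFreeWithin N e := by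
  by_contra hcon
  push Not at hcon
  choose G iG hG e he hs ht hb using hcon
  obtain ⟨N, hN⟩ := compact C (fun G _ h1 h2 => Pool.Agent.T9h15.KZ.SFree.of_mod (h G h1 h2))
    G hG e he hs ht
  exact hb N hN

theorem result :
    (∀ C : ∀ (G : Type) [Group G], Prop,
      (∀ (G : Type) [Group G], LocEmb C G → TorsionFree G → ProjStablyFree G) ↔
      (∀ n s : ℕ, ∃ N : ℕ, ∀ (G : Type) [Group G], C G →
        ∀ e : Matrix (Fin n) (Fin n) (MonoidAlgebra ℤ G), e * e = e → norm1 e ≤ s →
          NoShortTorsion (supp e) N → StablyFreeWithin N e)) ∧
    (∀ n s : ℕ, ∃ N : ℕ, ∀ (G : Type) [Group G], (∀ x y : G, x * y = y * x) →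
      ∀ e : Matrix (Fin n) (Fin n) (MonoidAlgebra ℤ G), e * e = e → norm1 e ≤ s →
        NoShortTorsion (supp e) N → StablyFreeWithin N e) ∧
    List.TFAE [
      ∀ (G : Type) [Group G], TorsionFree G → ProjStablyFree G,
      ∀ n s : ℕ, ∃ N : ℕ, ∀ (G : Type) [Group G],
        ∀ e : Matrix (Fin n) (Fin n) (MonoidAlgebra ℤ G), e * e = e → norm1 e ≤ s →
          NoShortTorsion (supp e) N → StablyFreeWithin N e,
      ∀ n s : ℕ, ∃ N : ℕ, ∀ (G : Type) [Group G],
        (∀ (g : G) (k : ℕ), 1 ≤ k → k ≤ N → g ^ k = 1 → g = 1) →
        ∀ e : Matrix (Fin n) (Fin n) (MonoidAlgebra ℤ G), e * e = e → norm1 e ≤ s → StablyFree e,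
      ∀ n s : ℕ, ∃ N : ℕ, ∀ (G : Type) [Group G], Group.IsFinitelyPresented G →
        ∀ e : Matrix (Fin n) (Fin n) (MonoidAlgebra ℤ G), e * e = e → norm1 e ≤ s →
          NoShortTorsion (supp e) N → StablyFree e,
      ∀ (H G : Type) [Group H] [Group G] (f : H →* G), Group.IsFinitelyPresented H →
        LargestTorsionFree f → ProjStablyFree G] := by
  have weak : ∀ {G : Type} [Group G] {N n : ℕ} {e : Matrix (Fin n) (Fin n) (MonoidAlgebra ℤ G)},
      StablyFreeWithin N e → StablyFree e := by
    rintro G _ N n e ⟨m, r, a, b, -, -, -, -, -, -, h1, h2⟩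
    exact ⟨m, r, a, b, h1, h2⟩
  refine ⟨fun C => ⟨fun h n s => uniform C h n s, fun h G _ hl hG =>
    mod_of_fin fun n e he => of_uniform C h G hl hG n e he⟩,
    fun n s => uniform (fun G _ => ∀ x y : G, x * y = y * x)
      (fun G _ hl hG => mod_of_fin (allSF_comm (comm_of_locEmb hl) hG)) n s, ?_⟩
  tfae_have 1 → 2 := by
    intro h n s
    obtain ⟨N, hN⟩ := uniform (fun _ _ => True) (fun G _ _ hG => h G hG) n s
    exact ⟨N, fun G _ e => hN G trivial e⟩
  tfae_have 2 → 3 := by
    intro h n s
    obtain ⟨N, hN⟩ := h n s
    exact ⟨N, fun G _ hG e h1 h2 => weak (hN G e h1 h2 fun x _ k hk1 hk2 hx => hG x k hk1 hk2 hx)⟩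
  tfae_have 2 → 4 := by
    intro h n s
    obtain ⟨N, hN⟩ := h n s
    exact ⟨N, fun G _ _ e h1 h2 h3 => weak (hN G e h1 h2 h3)⟩
  tfae_have 3 → 1 := by
    intro h G _ hG
    refine mod_of_fin fun n e he => ?_
    obtain ⟨N, hN⟩ := h n (norm1 e)
    exact hN G (fun g k hk1 _ hg => hG g (isOfFinOrder_iff_pow_eq_one.2 ⟨k, hk1, hg⟩)) e he le_rfl
  tfae_have 4 → 1 := by
    intro h G _ hG
    exact mod_of_fin fun n e he => of_fp h G hG n e he
  tfae_have 1 → 5 := fun h _ G _ _ _ _ hf => h G hf.2.1
  tfae_have 5 → 1 := by
    intro h G _ hG
    exact mod_of_fin fun n e he => of_reflection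
      (fun H Q _ _ f hH hf n e he => fin_of_mod (h H Q f hH hf) n e he) G hG n e he
  tfae_finish

end Pool.Agent.Results.MP_551055_al.LargeTorsion
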