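import Pool.Agent.T9h15.FC.Prod

/-!
# Projective modules over the group rings of a class of torsion-free groups

Let `TreeClass` be the smallest class of groups which contains the groups that are locally of the
form `F_r × ℤⁿ`, is closed under directed unions and contains each group `Γ` acting without
inversions on a tree such that the stabilisers of the vertices and edges are in the class and such
that for some `m ≥ 1` the groups `Γ_x ∩ Γ_y`, `x` and `y` of distance `m`, are locally of the form
`F_r × ℤⁿ`. For the groups `Γ` of this class the finitely generated projective modules over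
`ℤ[Γ × ℤᵏ]` are stably free for all `k`. The same holds over `R[Γ × ℤᵏ]` for each commutative
Noetherian ring `R` over which the finitely generated modules have finite free resolutions.
-/

set_option autoImplicit false

namespace Pool.Agent.Results.MP_551055_al.LongPathStabilisers

open Pool.Agent.T9h15.FC Pool.Agent.T9h15.KZ

/-- Let `Γ` be a group of the class `TreeClass`. Then the finitely generated projective modules
over `R[Γ × ℤᵏ]` are stably free for each `k` and each commutative Noetherian ring `R` over which
the finitely generated modules have finite free resolutions, for example for `R = ℤ`. -/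
theorem result (Γ : Type) [Group Γ] (h : TreeClass Γ) :
    (∀ k : ℕ, ProjStablyFree (MonoidAlgebra ℤ (Γ × (Fin k → Multiplicative ℤ)))) ∧
      ProjStablyFree (MonoidAlgebra ℤ Γ) ∧
      ∀ (R : Type) [CommRing R], IsNoetherianRing R →
        (∀ (M : Type) [AddCommGroup M] [Module R M], Module.Finite R M → HasFFR R M) →
        ProjStablyFree (MonoidAlgebra R Γ) ∧
          ∀ k : ℕ, ProjStablyFree (MonoidAlgebra R (Γ × (Fin k → Multiplicative ℤ))) :=
  ⟨fun k => SFree.mod (sfree_prod h k ℤ T9h82.FC.ffz), SFree.mod (sfree_tree h ℤ T9h82.FC.ffz),
    fun R _ h1 h2 => ⟨SFree.mod (sfree_tree h R ⟨h1, h2⟩),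
      fun k => SFree.mod (sfree_prod h k R ⟨h1, h2⟩)⟩⟩

end Pool.Agent.Results.MP_551055_al.LongPathStabilisers
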