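import Pool.Agent.T9h15.KZ.Ind

/-!
# Projective modules over the group ring of a group acting on a tree

Let `R` be a ring and let `Γ` be a group acting without inversions on a tree `T` with the vertex
set `V`. Suppose that

* `K₀(A) → K₀(A[t, t⁻¹])` is onto for the rings `A = R[Γ_x ∩ Γ_y]`, `x` and `y` adjacent, and
* for some `m ≥ 1` the ring `(R[Γ_x ∩ Γ_y])[t, t⁻¹]` is regular and coherent for all vertices `x`,
  `y` of distance `m`.

Then `K₀(R[Γ])` is generated by the images of the groups `K₀(R[Γ_v])`, `v ∈ V`: each idempotent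
matrix over `R[Γ]` is stably equivalent to an idempotent matrix induced from the stabilisers of the
vertices. In particular, if the finitely generated projective modules over the rings `R[Γ_v]` are
stably free, then the finitely generated projective modules over `R[Γ]` are stably free.

For `m = 1` this is a consequence of the theorems of Waldhausen. For `m > 1` no regularity is
assumed for the stabilisers of the edges.
-/

set_option autoImplicit false

namespace Pool.Agent.Results.MP_551055_al.TreeActionsKZero

open Pool.Agent.T9h15.KN Pool.Agent.T9h15.KZ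

/-- The ring `A[t, t⁻¹]` of Laurent polynomials, i.e. the group ring over `A` of the infinite
cyclic group. -/
abbrev Laurent (A : Type) [Ring A] : Type := MonoidAlgebra A (Multiplicative ℤ)

/-- `K₀(A) → K₀(A[t, t⁻¹])` is onto: for each idempotent matrix `p` over `A[t, t⁻¹]` some block sum
of `p` and an identity matrix is equivalent (equal to `a b`, where `b a` is the other matrix) to an
idempotent matrix `q` over `A`. -/
def StablyExtended (A : Type) [Ring A] : Prop :=
  ∀ (κ : Type) [Fintype κ] [DecidableEq κ] (p : Matrix κ κ (Laurent A)), p * p = p →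
    ∃ (m n : ℕ) (q : Matrix (Fin n) (Fin n) A) (a : Matrix (κ ⊕ Fin m) (Fin n) (Laurent A))
      (b : Matrix (Fin n) (κ ⊕ Fin m) (Laurent A)),
      q * q = q ∧ a * b = Matrix.fromBlocks p 0 0 1 ∧ b * a = q.map (MonoidAlgebra.single 1)

/-- Some block sum of the idempotent matrix `p` over `R[Γ]` and an identity matrix is equivalent to
an idempotent matrix `q` induced from the stabilisers of the points of `V`: the rows and columns
`k` of `q` have labels `ν_k ∈ V`, and `q(k, l)` is supported on the elements of `Γ` which map `ν_l`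
to `ν_k`. -/
def StablyInduced {R Γ : Type} [Ring R] [Group Γ] (V : Type) [MulAction Γ V] {n : ℕ}
    (p : Matrix (Fin n) (Fin n) (MonoidAlgebra R Γ)) : Prop :=
  ∃ (m k : ℕ) (ν : Fin k → V) (q : Matrix (Fin k) (Fin k) (MonoidAlgebra R Γ))
    (a : Matrix (Fin n ⊕ Fin m) (Fin k) (MonoidAlgebra R Γ))
    (b : Matrix (Fin k) (Fin n ⊕ Fin m) (MonoidAlgebra R Γ)),
    q * q = q ∧ (∀ i j g, (q i j).coeff g ≠ 0 → g • ν j = ν i) ∧
    a * b = Matrix.fromBlocks p 0 0 1 ∧ b * a = q

/-- Let the group `Γ` act without inversions on the tree `T`. If `K₀(A) → K₀(A[t, t⁻¹])` is onto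
for the rings `A = R[Γ_x ∩ Γ_y]`, `x` and `y` adjacent, and if for some `m ≥ 1` the ring
`(R[Γ_x ∩ Γ_y])[t, t⁻¹]` is regular and coherent for all `x`, `y` of distance `m`, then
`K₀(R[Γ])` is generated by the images of the `K₀(R[Γ_v])`. In particular, if the finitely generated
projective modules over the rings `R[Γ_v]` are stably free, then so are those over `R[Γ]`. -/
theorem result (R : Type) [Ring R] (Γ : Type) [Group Γ] (V : Type)
    [MulAction Γ V] (T : SimpleGraph V) (hT : T.IsTree)
    (hact : ∀ (g : Γ) (u v : V), T.Adj u v → T.Adj (g • u) (g • v))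
    (hinv : ∀ (g : Γ) (u v : V), T.Adj u v → ¬ (g • u = v ∧ g • v = u))
    (hedge : ∀ x y : V, T.Adj x y → StablyExtended (MonoidAlgebra R
      (MulAction.stabilizer Γ x ⊓ MulAction.stabilizer Γ y : Subgroup Γ)))
    (m : ℕ) (hm : 1 ≤ m)
    (hreg : ∀ x y : V, T.dist x y = m → RegCoh (Laurent (MonoidAlgebra R
      (MulAction.stabilizer Γ x ⊓ MulAction.stabilizer Γ y : Subgroup Γ)))) :
    (∀ (n : ℕ) (p : Matrix (Fin n) (Fin n) (MonoidAlgebra R Γ)), p * p = p → StablyInduced V p) ∧
      ((∀ v : V, ProjStablyFree (MonoidAlgebra R (MulAction.stabilizer Γ v))) →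
        ProjStablyFree (MonoidAlgebra R Γ)) := by
  obtain ⟨k, rfl⟩ : ∃ k, m = k + 1 := ⟨m - 1, by omega⟩
  refine ⟨fun n p hp => ?_, fun hvert => ?_⟩
  · exact exists_ind hT hact hinv hedge k hreg p hp
  · exact SFree.mod (sfree_gen hT hact hinv (fun v => SFree.of_mod (hvert v)) hedge k hreg)

end Pool.Agent.Results.MP_551055_al.TreeActionsKZero
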